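import Mathlib

namespace Pool.Agent.Results.MP_060d7c_co.Lower

open Finset

/-- Euclidean distance of two lattice points. -/
noncomputable def ed {d : ℕ} (x y : Fin d → ℤ) : ℝ := √(∑ i, ((x i : ℝ) - y i) ^ 2)

/-- No repeated distance: different unordered pairs of distinct points have different distances. -/
def DD {d : ℕ} (S : Finset (Fin d → ℤ)) : Prop :=
  ∀ x ∈ S, ∀ y ∈ S, ∀ z ∈ S, ∀ w ∈ S, x ≠ y → z ≠ w → ed x y = ed z w → s(x, y) = s(z, w)

/-- The largest size of a subset of `{1, …, m}^d` with no repeated distance. -/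
noncomputable def k (d m : ℕ) : ℕ :=
  sSup {r | ∃ S : Finset (Fin d → ℤ), (∀ x ∈ S, ∀ i, 1 ≤ x i ∧ x i ≤ m) ∧ DD S ∧ S.card = r}

def V {d : ℕ} (b : ℤ) (x : Fin d → ℤ) : ℤ := ∑ i, x i * b ^ (i : ℕ)

theorem Vs {d : ℕ} (b : ℤ) (x : Fin (d + 1) → ℤ) : V b x = x 0 + b * V b fun i => x i.succ := by
  simp only [V, Fin.sum_univ_succ, mul_sum, Fin.val_succ, Fin.val_zero, pow_zero, mul_one]
  congr 1
  exact sum_congr rfl fun i _ => by ring

theorem sm {p z : ℤ} (h : p ∣ z) (a : -p < z) (c : z < p) : z = 0 :=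
  Int.eq_zero_of_abs_lt_dvd h (abs_lt.2 ⟨a, c⟩)

theorem uq {b : ℤ} : ∀ {d : ℕ} (x : Fin d → ℤ), (∀ i, -b < x i ∧ x i < b) → V b x = 0 → ∀ i, x i = 0
  | 0, _, _, _, i => i.elim0
  | d + 1, x, h, e, i => by
    rw [Vs] at e
    have z : x 0 = 0 := sm ⟨-V b fun i => x i.succ, by linear_combination e⟩ (h 0).1 (h 0).2
    have := h 0
    have r := uq (fun i => x i.succ) (fun i => h _)
      ((mul_eq_zero.1 (by linear_combination e - z)).resolve_left (by omega : b ≠ 0))
    exact Fin.cases z r i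

theorem bd {b : ℤ} : ∀ {d : ℕ} (x : Fin d → ℤ), (∀ i, 0 ≤ x i ∧ 2 * x i < b) →
    0 ≤ V b x ∧ 2 * V b x < b ^ d
  | 0, _, _ => by simp [V]
  | d + 1, x, h => by
    have r := bd (fun i => x i.succ) fun i => h _
    have := h 0
    have b0 : 0 ≤ b := by omega
    have := mul_le_mul_of_nonneg_left (show 2 * V b (fun i => x i.succ) ≤ b ^ d - 1 by omega) b0
    have := mul_nonneg b0 r.1
    rw [Vs, pow_succ]
    constructor <;> linarith

theorem dig {b : ℤ} (hb : 0 < b) : ∀ (d : ℕ) (w : ℤ), 0 ≤ w → w < 4 * b ^ (d + 1) →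
    ∃ e : Fin (d + 1) → ℤ, (∀ i, 0 ≤ e i ∧ e i < 4 * b) ∧ V b e = w
  | 0, w, h, g => ⟨fun _ => w, fun _ => ⟨h, by simpa using g⟩, by simp [V]⟩
  | d + 1, w, h, g => by
    obtain ⟨e, u, v⟩ := dig hb d (w / b) (Int.ediv_nonneg h hb.le)
      (Int.ediv_lt_of_lt_mul hb (by rw [pow_succ] at g; linarith))
    have := Int.emod_nonneg w hb.ne'
    have := Int.emod_lt_of_pos w hb
    refine ⟨Fin.cons (w % b) e, fun i => Fin.cases ⟨by simpa, by simp; omega⟩ (fun i => u i) i, ?_⟩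
    rw [Vs]
    simp only [Fin.cons_zero, Fin.cons_succ]
    rw [v, Int.emod_add_mul_ediv]

variable {d p : ℕ} {b : ℤ}

def R (p : ℕ) (b : ℤ) (a : Fin d → ℤ) (j : Fin d) : ℤ := ∑ i, a i * (b ^ ((i : ℕ) + j) % p)

theorem Rc (a : Fin d → ℤ) (j : Fin d) : ((R p b a j : ℤ) : ZMod p) = b ^ (j : ℕ) * (V b a : ℤ) := by
  simp only [R, V, Int.cast_sum, Int.cast_mul, ZMod.intCast_mod, Int.cast_pow, mul_sum]
  exact sum_congr rfl fun i _ => by ring

structure Pt (d p : ℕ) (b : ℤ) where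
  a : Fin d → ℤ
  e : Fin d → ℤ
  h : ((V b e : ℤ) : ZMod p) = (V b a : ℤ) ^ 2
  r : ∀ i, 0 ≤ a i ∧ 2 * a i < b

def Y (x : Pt d p b) (j : Fin d) : ℤ := p * x.e j + R p b x.a j + 1

def D (x y : Pt d p b) : ℤ := ∑ j, (Y x j - Y y j) ^ 2

theorem zz {z : ℤ} (h : (z : ZMod p) = 0) (a : -(p : ℤ) < z) (c : z < p) : z = 0 :=
  sm ((ZMod.intCast_zmod_eq_zero_iff_dvd _ _).1 h) a c

theorem inj (x y : Pt d p b) (h : V b x.a = V b y.a) : x.a = y.a := by
  have := uq (b := b) (fun i => x.a i - y.a i) (fun i => by have := x.r i; have := y.r i; omega)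
    (by simp only [V, sub_mul, sum_sub_distrib] at h ⊢; omega)
  funext i
  have := this i
  omega

theorem same [Fact p.Prime] (hbp : b ^ d + 1 < p) (p4 : 4 < p) (x y z w : Pt d p b)
    (n : V b x.a ≠ V b y.a) (u : V b x.a - V b y.a = V b z.a - V b w.a) (e : D x y = D z w) :
    x.a = z.a ∧ y.a = w.a := by
  have q := uq (b := b) (fun i => x.a i - y.a i - z.a i + w.a i)
    (fun i => by have := x.r i; have := y.r i; have := z.r i; have := w.r i; omega)
    (by simp only [V, sub_mul, add_mul, sum_sub_distrib, sum_add_distrib] at u ⊢; omega)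
  have q' : ∀ j, R p b z.a j - R p b w.a j = R p b x.a j - R p b y.a j := fun j => by
    simp only [R, ← sum_sub_distrib]
    exact sum_congr rfl fun i _ => by linear_combination -(b ^ ((i : ℕ) + j) % p) * q i
  have p0 : (p : ℤ) ≠ 0 := by omega
  have E : ∑ j, (p * ((x.e j - y.e j) ^ 2 - (z.e j - w.e j) ^ 2) +
      2 * (R p b x.a j - R p b y.a j) * (x.e j - y.e j - z.e j + w.e j)) = 0 := by
    refine mul_left_cancel₀ p0 ?_
    rw [mul_zero, ← sub_eq_zero.2 e, D, D, ← sum_sub_distrib, mul_sum]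
    refine sum_congr rfl fun j _ => ?_
    simp only [Y]
    linear_combination (2 * p * (z.e j - w.e j) + (R p b z.a j - R p b w.a j) +
      (R p b x.a j - R p b y.a j)) * q' j
  have F := congrArg (Int.cast : ℤ → ZMod p) E
  simp only [Int.cast_sum, Int.cast_add, Int.cast_mul, Int.cast_sub, Int.cast_natCast,
    ZMod.natCast_self, zero_mul, zero_add, Rc, Int.cast_zero, Int.cast_ofNat] at F
  have G : (2 : ZMod p) * ((V b x.a : ℤ) - (V b y.a : ℤ)) *
      ((V b x.e : ℤ) - (V b y.e : ℤ) - (V b z.e : ℤ) + (V b w.e : ℤ)) = 0 := by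
    rw [← F]
    generalize V b x.a = A
    generalize V b y.a = B
    simp only [V, Int.cast_sum, Int.cast_mul, Int.cast_pow, ← sum_sub_distrib, ← sum_add_distrib,
      mul_sum]
    exact sum_congr rfl fun j _ => by ring
  rw [x.h, y.h, z.h, w.h] at G
  have U := congrArg (Int.cast : ℤ → ZMod p) u
  push_cast at U
  have I : ((4 : ℤ) : ZMod p) * (((V b x.a - V b y.a : ℤ) : ZMod p) *
      (((V b x.a - V b y.a : ℤ) : ZMod p) * ((V b y.a - V b w.a : ℤ) : ZMod p))) = 0 := by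
    push_cast
    linear_combination G - 2 * (((V b x.a : ℤ) : ZMod p) - (V b y.a : ℤ)) *
      ((V b x.a : ℤ) - (V b y.a : ℤ) + (V b z.a : ℤ) + (V b w.a : ℤ)) * U
  have := bd _ x.r; have := bd _ y.r; have := bd _ z.r; have := bd _ w.r
  have nu : ((V b x.a - V b y.a : ℤ) : ZMod p) ≠ 0 := fun h => n (by
    have := zz h (by omega) (by omega); omega)
  have := zz ((mul_eq_zero.1 ((mul_eq_zero.1 ((mul_eq_zero.1 I).resolve_left fun h =>
    absurd (zz h (by omega) (by omega)) (by norm_num))).resolve_left nu)).resolve_left nu)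
    (by omega) (by omega)
  exact ⟨inj _ _ (by omega), inj _ _ (by omega)⟩

theorem core [Fact p.Prime] (hb : 1 < b ^ d) (hbp : b ^ d + 1 < p) (p4 : 4 < p) (x y z w : Pt d p b)
    (n : V b x.a ≠ V b y.a) (e : D x y = D z w) :
    (x.a = z.a ∧ y.a = w.a) ∨ (x.a = w.a ∧ y.a = z.a) := by
  have r : ∀ x y : Pt d p b, ((D x y : ℤ) : ZMod p) =
      (∑ j ∈ range d, ((b : ZMod p) ^ 2) ^ j) * ((V b x.a : ℤ) - (V b y.a : ℤ)) ^ 2 := fun x y => by
    rw [← Fin.sum_univ_eq_sum_range, sum_mul]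
    simp only [D, Y, Int.cast_sum, Int.cast_pow, Int.cast_add, Int.cast_mul, Int.cast_sub,
      Int.cast_natCast, ZMod.natCast_self, zero_mul, zero_add, Rc, Int.cast_one]
    exact sum_congr rfl fun j _ => by ring
  have g := geom_sum_mul ((b : ZMod p) ^ 2) d
  have E := (r x y).symm.trans ((congrArg _ e).trans (r z w))
  have I : ((b ^ d - 1 : ℤ) : ZMod p) * (((b ^ d + 1 : ℤ) : ZMod p) *
      (((V b x.a - V b y.a - (V b z.a - V b w.a) : ℤ) : ZMod p) *
      ((V b x.a - V b y.a - (V b w.a - V b z.a) : ℤ) : ZMod p))) = 0 := by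
    push_cast
    linear_combination ((b : ZMod p) ^ 2 - 1) * E - ((((V b x.a : ℤ) : ZMod p) - (V b y.a : ℤ)) ^ 2 -
      (((V b z.a : ℤ) : ZMod p) - (V b w.a : ℤ)) ^ 2) * g
  have := bd _ x.r; have := bd _ y.r; have := bd _ z.r; have := bd _ w.r
  rcases mul_eq_zero.1 ((mul_eq_zero.1 ((mul_eq_zero.1 I).resolve_left fun h =>
    absurd (zz h (by omega) (by omega)) (by omega))).resolve_left fun h =>
    absurd (zz h (by omega) (by omega)) (by omega)) with h | h
  · have := zz h (by omega) (by omega)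
    exact Or.inl (same hbp p4 x y z w n (by omega) e)
  · have := zz h (by omega) (by omega)
    exact Or.inr (same hbp p4 x y w z n (by omega)
      (e.trans (sum_congr rfl fun j _ => by ring)))

theorem bdd (d m : ℕ) : BddAbove {r | ∃ S : Finset (Fin d → ℤ),
    (∀ x ∈ S, ∀ i, 1 ≤ x i ∧ x i ≤ m) ∧ DD S ∧ S.card = r} := by
  refine ⟨(Fintype.piFinset fun _ : Fin d => Icc (1 : ℤ) m).card, ?_⟩
  rintro _ ⟨S, hS, -, rfl⟩
  exact card_le_card fun x hx => Fintype.mem_piFinset.2 fun i => mem_Icc.2 (hS x hx i)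

theorem low (d h m : ℕ) (hd : 1 ≤ d) (hh : 1 ≤ h) (hm : (4 * d + 20) * (2 * h) ^ (d + 2) ≤ m) :
    h ^ (d + 1) ≤ k (d + 1) m := by
  obtain ⟨p, hp, q1, q2⟩ := Nat.exists_prime_lt_and_le_two_mul ((2 * h) ^ (d + 1) + 1) (by positivity)
  have := Fact.mk hp
  have H : (1 : ℤ) ≤ h := by exact_mod_cast hh
  set b : ℤ := 2 * h with hb
  have Q1 : b ^ (d + 1) + 1 < p := by rw [hb]; exact_mod_cast q1
  have Q2 : (p : ℤ) ≤ 2 * (b ^ (d + 1) + 1) := by rw [hb]; exact_mod_cast q2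
  have M : (4 * d + 20) * b ^ (d + 2) ≤ m := by rw [hb]; exact_mod_cast hm
  have b4 : 4 ≤ b ^ (d + 1) := by
    calc (4 : ℤ) = 2 ^ 2 := by norm_num
      _ ≤ b ^ 2 := pow_le_pow_left₀ (by norm_num) (by omega) 2
      _ ≤ _ := pow_le_pow_right₀ (by omega) (by omega)
  have p0 : (0 : ℤ) < p := by omega
  choose e he he' using fun a : Fin (d + 1) → Fin h => dig (b := b) (by omega) d
    ((V b fun i => (a i : ℕ)) ^ 2 % p) (Int.emod_nonneg _ p0.ne')
    ((Int.emod_lt_of_pos _ p0).trans_le (by omega))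
  let P : (Fin (d + 1) → Fin h) → Pt (d + 1) p b := fun a =>
    ⟨fun i => (a i : ℕ), e a, by rw [he', ZMod.intCast_mod]; push_cast; rfl,
      fun i => by have := (a i).2; omega⟩
  have iA : ∀ a c, (P a).a = (P c).a → a = c := fun a c t => funext fun i => Fin.ext (by
    have : ((a i : ℕ) : ℤ) = (c i : ℕ) := congrFun t i
    omega)
  have iY : Function.Injective fun a => Y (P a) := by
    intro a c t
    have t0 := congrArg (Int.cast : ℤ → ZMod p) (congrFun t 0)
    simp only [Y, Int.cast_add, Int.cast_mul, Int.cast_natCast, ZMod.natCast_self, zero_mul,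
      zero_add, Rc, Fin.val_zero, pow_zero, one_mul, add_left_inj] at t0
    have := bd _ (P a).r; have := bd _ (P c).r
    have := zz (p := p) (z := V b (P a).a - V b (P c).a) (by push_cast; rw [t0, sub_self])
      (by omega) (by omega)
    exact iA _ _ (inj _ _ (by omega))
  refine le_csSup (bdd _ _) ⟨univ.image fun a => Y (P a), ?_, ?_, ?_⟩
  · intro x hx j
    obtain ⟨a, -, rfl⟩ := mem_image.1 hx
    have u := he a j
    have r0 : 0 ≤ R p b (P a).a j :=
      sum_nonneg fun i _ => mul_nonneg ((P a).r i).1 (Int.emod_nonneg _ p0.ne')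
    have r1 : R p b (P a).a j ≤ ∑ _i : Fin (d + 1), b * (4 * b ^ (d + 1)) :=
      sum_le_sum fun i _ => mul_le_mul (by have := (P a).r i; omega)
        ((Int.emod_lt_of_pos _ p0).le.trans (by omega)) (Int.emod_nonneg _ p0.ne') (by omega)
    have e0 : 0 ≤ (p : ℤ) * e a j := mul_nonneg p0.le u.1
    have e1 : (p : ℤ) * e a j ≤ (4 * b ^ (d + 1)) * (4 * b - 1) :=
      mul_le_mul (by omega) (by omega) u.1 (by omega)
    simp only [sum_const, card_univ, Fintype.card_fin, nsmul_eq_mul] at r1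
    push_cast at r1
    rw [pow_succ b (d + 1)] at M
    show 1 ≤ p * e a j + R p b (P a).a j + 1 ∧ p * e a j + R p b (P a).a j + 1 ≤ _
    constructor <;> linarith
  · intro x hx y hy z hz w hw n _ t
    obtain ⟨a, -, rfl⟩ := mem_image.1 hx
    obtain ⟨a', -, rfl⟩ := mem_image.1 hy
    obtain ⟨c, -, rfl⟩ := mem_image.1 hz
    obtain ⟨c', -, rfl⟩ := mem_image.1 hw
    rw [ed, ed, Real.sqrt_inj (by positivity) (by positivity)] at t
    have t' : D (P a) (P a') = D (P c) (P c') := by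
      unfold D
      exact_mod_cast t
    rcases core (by omega) Q1 (by omega) _ _ _ _ (fun t => n (by rw [iA _ _ (inj _ _ t)])) t'
      with t | t
    · rw [iA _ _ t.1, iA _ _ t.2]
    · rw [iA _ _ t.1, iA _ _ t.2, Sym2.eq_swap]
  · rw [card_image_of_injective _ iY]
    simp

theorem result (d : ℕ) (hd : 3 ≤ d) : ∃ c : ℝ, 0 < c ∧ ∀ m : ℕ, 1 ≤ m →
    c * ((m : ℝ) ^ d) ^ (1 / ((d : ℝ) + 1)) ≤ k d m := by
  obtain ⟨d, rfl⟩ : ∃ e, d = e + 1 := ⟨d - 1, by omega⟩
  set K := (4 * d + 20) * 4 ^ (d + 2) with hK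
  have K0 : 0 < K := by positivity
  refine ⟨1 / K, by positivity, fun m hm => ?_⟩
  obtain ⟨h, h1, h2⟩ : ∃ h, h ^ (d + 1) ≤ k (d + 1) m ∧ m ≤ K * h ^ (d + 2) := by
    have ex : ∃ h, m < (4 * d + 20) * (2 * (h + 1)) ^ (d + 2) := ⟨m, by
      calc m < 2 * (m + 1) := by omega
        _ ≤ (2 * (m + 1)) ^ (d + 2) := Nat.le_self_pow (by omega) _
        _ ≤ _ := Nat.le_mul_of_pos_left _ (by omega)⟩
    classical
    have s := Nat.find_spec ex
    rcases hh : Nat.find ex with _ | h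
    · rw [hh] at s
      refine ⟨1, ?_, ?_⟩
      · rw [one_pow]
        refine le_csSup (bdd _ _) ⟨{fun _ => 1}, fun x hx i => ?_, fun x hx y hy _ _ _ _ n => ?_, rfl⟩
        · rw [mem_singleton.1 hx]
          exact ⟨le_rfl, show (1 : ℤ) ≤ m by exact_mod_cast hm⟩
        · exact absurd ((mem_singleton.1 hx).trans (mem_singleton.1 hy).symm) n
      · rw [one_pow, mul_one]
        exact s.le.trans (Nat.mul_le_mul_left _ (Nat.pow_le_pow_left (by omega) _))
    · rw [hh] at s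
      refine ⟨h + 1, low d _ m (by omega) (by omega)
        (not_lt.1 (Nat.find_min ex (by omega : h < Nat.find ex))), ?_⟩
      rw [hK, mul_assoc, ← mul_pow]
      exact s.le.trans (Nat.mul_le_mul_left _ (Nat.pow_le_pow_left (by omega) _))
  have a : m ^ (d + 1) ≤ (K * k (d + 1) m) ^ (d + 2) := by
    calc m ^ (d + 1) ≤ (K * h ^ (d + 2)) ^ (d + 1) := Nat.pow_le_pow_left h2 _
      _ = K ^ (d + 1) * (h ^ (d + 1)) ^ (d + 2) := by ring
      _ ≤ K ^ (d + 2) * (k (d + 1) m) ^ (d + 2) :=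
        Nat.mul_le_mul (Nat.pow_le_pow_right K0 (by omega)) (Nat.pow_le_pow_left h1 _)
      _ = _ := (mul_pow _ _ _).symm
  have a' : (m : ℝ) ^ (d + 1) ≤ ((K : ℝ) * k (d + 1) m) ^ (d + 2) := by exact_mod_cast a
  have := Real.rpow_le_rpow (by positivity) a' (show 0 ≤ ((d + 2 : ℕ) : ℝ)⁻¹ by positivity)
  rw [Real.pow_rpow_inv_natCast (by positivity) (by omega)] at this
  rw [one_div, one_div, inv_mul_le_iff₀ (by positivity),
    show ((d + 1 : ℕ) : ℝ) + 1 = (d + 2 : ℕ) by push_cast; ring]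
  exact this

end Pool.Agent.Results.MP_060d7c_co.Lower
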